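import Pool.Agent.Q62.Bass.Core

/-!
# The Bass trace conjecture in characteristic zero and finite groups

Over every commutative domain `R` of characteristic zero the Bass trace conjecture holds for all
groups which are locally embeddable into finite groups, in particular for all residually finite
groups, and for all groups in which the centralisers of the elements of infinite order are
residually finite.  In general the rank of an idempotent matrix vanishes at all elements `g` which
are detected by finite groups: by maps to finite groups which are multiplicative on given finite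
sets, or by the finite quotients of the centraliser of `g`.
-/

set_option autoImplicit false

namespace Pool.Agent.Results.MP_7903c7_al.FiniteDetection

universe u v

/-- The Bass trace conjecture (the assertion of Q1) for the ring `R` and the group `G`. -/
def BassFor (R : Type u) [CommRing R] (G : Type v) [Group G] : Prop :=
  ∀ (n : ℕ) (A : Matrix (Fin n) (Fin n) (MonoidAlgebra R G)), A * A = A →
    ∀ g : G, ¬ IsUnit ((orderOf g : ℕ) : R) →
      ∑ i : Fin n, ∑ᶠ (h : G) (_ : IsConj h g), (A i i).coeff h = 0

/-- `h` has infinite order. -/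
def InfOrder {H : Type v} [Group H] (h : H) : Prop := ¬ ∃ n : ℕ, 0 < n ∧ h ^ n = 1

/-- For every finite subset `W` of `H` and every `m > 0` there is a map `f` from `H` to a finite
group with `f (x y) = f x f y` for `x, y ∈ W` and `f h ^ m ≠ 1`. -/
def LocallyDetected {H : Type v} [Group H] (h : H) : Prop :=
  ∀ (W : Finset H) (m : ℕ), 0 < m → ∃ (Q : Type v) (_ : Group Q) (_ : Finite Q) (f : H → Q),
    (∀ x ∈ W, ∀ y ∈ W, f (x * y) = f x * f y) ∧ f h ^ m ≠ 1

/-- For every `m > 0` some subgroup of finite index of the centraliser of `h` does not contain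
`h ^ m`. -/
def CentrallyDetected {H : Type v} [Group H] (h : H) : Prop :=
  ∀ m : ℕ, 0 < m → ∃ N : Subgroup (Subgroup.centralizer ({h} : Set H)), N.FiniteIndex ∧
    ∀ z ∈ N, (z : H) ≠ h ^ m

/-- Some homomorphism maps `h` to a locally detected or to a centrally detected element. -/
def Detected {H : Type v} [Group H] (h : H) : Prop :=
  ∃ (H' : Type v) (_ : Group H') (φ : H →* H'), LocallyDetected (φ h) ∨ CentrallyDetected (φ h)

/-- `G` is locally embeddable into finite groups. -/
def LEF (G : Type v) [Group G] : Prop :=
  ∀ W : Finset G, ∃ (Q : Type v) (_ : Group Q) (_ : Finite Q) (f : G → Q),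
    Set.InjOn f W ∧ ∀ x ∈ W, ∀ y ∈ W, f (x * y) = f x * f y

/-- `G` is residually finite. -/
def ResFin (G : Type v) [Group G] : Prop :=
  ∀ g : G, g ≠ 1 → ∃ N : Subgroup G, N.FiniteIndex ∧ g ∉ N

/-- Let `R` be a commutative domain of characteristic zero and `G` a group.
(1) The rank of every idempotent matrix over `R[G]` vanishes at every detected element of `G`.
(2) The Bass trace conjecture holds for `R` and `G` if in every finitely generated subgroup of `G`
all elements of infinite order are detected.
(3) It holds for `R` and `G` if `G` has a periodic normal subgroup `N` such that `G ⧸ N` is locally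
embeddable into finite groups, in particular if `G` itself is, and if `G` is residually finite.
(4) It holds for `R` and `G` if in every finitely generated subgroup of `G` the centralisers of the
elements of infinite order are residually finite. -/
theorem result (R : Type u) [CommRing R] [IsDomain R] [CharZero R] (G : Type v) [Group G] :
    (∀ (n : ℕ) (A : Matrix (Fin n) (Fin n) (MonoidAlgebra R G)), A * A = A →
      ∀ g : G, Detected g → ∑ i : Fin n, ∑ᶠ (h : G) (_ : IsConj h g), (A i i).coeff h = 0) ∧
    ((∀ H : Subgroup G, H.FG → ∀ h : H, InfOrder h → Detected h) → BassFor R G) ∧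
    (∀ (N : Subgroup G) [N.Normal], (∀ x ∈ N, ∃ n : ℕ, 0 < n ∧ x ^ n = 1) → LEF (G ⧸ N) →
      BassFor R G) ∧
    (LEF G → BassFor R G) ∧
    (ResFin G → BassFor R G) ∧
    ((∀ H : Subgroup G, H.FG → ∀ h : H, InfOrder h →
      ResFin (Subgroup.centralizer ({h} : Set H))) → BassFor R G) := by
  have h2 : (∀ H : Subgroup G, H.FG → ∀ h : H, InfOrder h → Detected h) → BassFor R G :=
    fun hG n A hA g hg => Q62.Bass.bass_of_detected hG A hA g hg
  have hN : ∀ (N : Subgroup G) [N.Normal], (∀ x ∈ N, ∃ n : ℕ, 0 < n ∧ x ^ n = 1) → LEF (G ⧸ N) →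
      BassFor R G := by
    intro N _ hper hL
    apply h2
    intro H _ h hh
    refine ⟨G ⧸ N, inferInstance, (QuotientGroup.mk' N).comp H.subtype, Or.inl ?_⟩
    apply Q62.Bass.LEF.detected hL
    rintro ⟨k, hk, h1⟩
    apply hh
    have h3 : (QuotientGroup.mk' N) ((h : G) ^ k) = 1 := by
      rw [map_pow]; exact h1
    have h4 : (h : G) ^ k ∈ N := (QuotientGroup.eq_one_iff _).1 h3
    obtain ⟨l, hl, h5⟩ := hper _ h4
    refine ⟨k * l, Nat.mul_pos hk hl, Subtype.ext ?_⟩
    rw [Subgroup.coe_pow, pow_mul, h5]
    rfl
  have hLEF : LEF G → BassFor R G := by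
    intro hL
    apply h2
    intro H _ h hh
    exact ⟨H, inferInstance, MonoidHom.id H, Or.inl (Q62.Bass.LEF.detected
      (Q62.Bass.LEF.subgroup hL H) hh)⟩
  refine ⟨fun n A hA g hg => Q62.Bass.tau_zero_of_detected hA hg, h2, hN, hLEF, ?_, ?_⟩
  · intro hR
    apply hLEF
    exact Q62.Bass.ResFin.lef hR
  · intro hC
    apply h2
    intro H hH h hh
    exact ⟨H, inferInstance, MonoidHom.id H, Or.inr (Q62.Bass.ResFin.detected (hC H hH h hh) hh)⟩

end Pool.Agent.Results.MP_7903c7_al.FiniteDetection
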