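import Pool.Agent.H26R2.Bass.Main
import Pool.Agent.H26R2.Bass.Src
import Pool.Agent.H26R2.IdemLI.NoDiv
import Pool.Agent.H26R2.IdemLI.Lin

/-!
# The Bass trace conjecture for groups with a good normal series

A nontorsion element `h` of a group is good over the domain `R` if some homomorphism from the
centraliser of `h` to the additive group of the fractions does not vanish at `h`, or `h` is not
conjugate to the `h ^ (p ^ j)`, `j ≥ 1`, for a prime `p` which is not a unit of `R`, or `R` has
characteristic zero and `h` is not almost divisible. We prove the conjecture for the groups, over all
commutative domains `R`, which have a normal subgroup with a finite series with good factors such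
that the other elements of infinite order become good in quotients of finitely generated subgroups.
-/

set_option autoImplicit false

namespace Pool.Agent.Results.MP_7903c7_al.GoodSeries

open Pool.Agent.H26R2.Bass (BassFor Good Admissible PChainFin LinearNonUnit VirtResP AccCyclic FGLinear)
open Pool.Agent.H26R2.IdemLI (ChainFin)

universe u v w z

/-- (1) Let `R` be a commutative domain and `G` a group. Suppose that `G` is admissible over `R`, or
that all finitely generated subgroups of `G` are, or that all elements of infinite order of the
finitely generated subgroups `H` of `G` are good in `H` over `R`. Then the Bass trace conjecture holds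
for `R` and `G`. Here `G` is admissible if it has a normal subgroup `N` with a finite series of normal
subgroups of `G` whose factors are periodic, or have finite conjugacy classes, or have enough
homomorphisms of centralisers to the additive group of the fractions of `R`, or satisfy `PChainFin p`
for a nonunit prime `p` of `R`, or, if `R` has characteristic zero, are abelian of finite rank or
satisfy `ChainFin`, such that the elements `h` of the finitely generated subgroups `H` of `G` which
have no power in `N` have a good image in some quotient of `H`.
(2) `PChainFin p` holds for the groups which are linear over a finitely generated domain in which `p`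
is not a unit, the virtually residually finite-`p` groups, and the groups with the ascending chain
condition on cyclic subgroups.
(3) `ChainFin` holds for the finitely generated linear groups of characteristic zero, and for the
groups with the ascending chain condition on cyclic subgroups. -/
theorem result :
    (∀ (R : Type u) [CommRing R] [IsDomain R] (G : Type v) [Group G],
      (Admissible R G ∨ (∀ H : Subgroup G, H.FG → Admissible R H) ∨
        ∀ H : Subgroup G, H.FG → ∀ h : H, (¬ ∃ n : ℕ, 0 < n ∧ h ^ n = 1) → Good R h) →
      BassFor R G) ∧
    (∀ (p : ℕ), p.Prime → ∀ (A : Type v) [Group A],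
      LinearNonUnit.{v, z} p A ∨ VirtResP p A ∨ AccCyclic A → PChainFin p A) ∧
    (∀ (A : Type v) [Group A], FGLinear.{v, z} A ∨ AccCyclic A → ChainFin A) := by
  refine ⟨?_, ?_, ?_⟩
  · intro R _ _ G _ h n A hA g hg
    rcases h with h | h | h
    · exact Pool.Agent.H26R2.Bass.bass_main (Or.inl h) A hA g hg
    · exact Pool.Agent.H26R2.Bass.bass_main (Or.inr h) A hA g hg
    · exact Pool.Agent.H26R2.Bass.bass_of_local h A hA g hg
  · intro p hp A _ h
    rcases h with ⟨S, _, _, hS, d, ρ, hpS, hρ⟩ | ⟨P, hP, h⟩ | h
    · exact Pool.Agent.H26R2.Bass.pChainFin_of_linear hp A S hS hpS d ρ hρ
    · exact Pool.Agent.H26R2.Bass.pChainFin_of_vres hp A P hP h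
    · exact Pool.Agent.H26R2.Bass.pChainFin_of_acc hp A h
  · intro A _ h
    rcases h with ⟨hfg, F, _, _, d, ρ, hρ⟩ | h
    · exact Pool.Agent.H26R2.IdemLI.chainFin_of_rootBounded A
        (Pool.Agent.H26R2.IdemLI.rootBounded_linear A hfg ρ hρ)
    · exact Pool.Agent.H26R2.IdemLI.chainFin_of_acc A h

end Pool.Agent.Results.MP_7903c7_al.GoodSeries
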