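import Pool.Agent.Q91.PP.SubR
import Pool.Agent.Q91.VR.Class
import Pool.Agent.H26R2.Bass.Main

/-!
# The Bass trace conjecture over domains of any characteristic, for groups of piecewise projective
# homeomorphisms and their extensions by virtually residually finite `p`-groups

Let `R` be a commutative domain of any characteristic and `p` a prime which is not a unit in `R`,
for example the characteristic of `R` if this is positive.  The Bass trace conjecture over `R` holds
for all groups `G` in which every element of infinite order of a finitely generated subgroup `H` has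
a nontrivial image under some homomorphism from `H` to the group of increasing homeomorphisms of the
line which is piecewise projective over a subring of `ℝ` without `1 / p`, or an image of infinite
order in a group which is virtually residually a finite `p`-group.  For example `G` can be
Thompson's group `F`, if `p ≠ 2`, or a group of Bieri and Strebel with slopes and translations in
`ℤ[1/n]`, `p ∤ n`.
-/

set_option autoImplicit false

namespace Pool.Agent.Results.MP_7903c7_al.NonUnitPrime

open Pool.Agent.Q91.VR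

universe u v

/-- The Bass trace conjecture for the ring `R` and the group `G`. -/
def BassFor (R : Type u) [CommRing R] (G : Type v) [Group G] : Prop :=
  ∀ (n : ℕ) (A : Matrix (Fin n) (Fin n) (MonoidAlgebra R G)), A * A = A →
    ∀ g : G, ¬ IsUnit ((orderOf g : ℕ) : R) →
      ∑ i : Fin n, ∑ᶠ (h : G) (_ : IsConj h g), (A i i).coeff h = 0

/-- `f` is piecewise projective over the subring `B`: there are finitely many invertible matrices
over `B` such that `f` is given by one of the corresponding maps `z ↦ (α z + β) / (γ z + δ)` near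
`-∞` and to the right of each point of the line. -/
def PiecewiseProjectiveOver (B : Subring ℝ) (f : ℝ → ℝ) : Prop :=
  ∃ S : Finset (Matrix (Fin 2) (Fin 2) ℝ),
    (∀ M ∈ S, (∀ i j, M i j ∈ B) ∧ M.det ≠ 0 ∧ (M.det)⁻¹ ∈ B) ∧
    (∃ M ∈ S, ∃ b : ℝ, ∀ z < b, f z * (M 1 0 * z + M 1 1) = M 0 0 * z + M 0 1) ∧
    ∀ a : ℝ, ∃ M ∈ S, ∃ b > a, ∀ z, a < z → z < b →
      f z * (M 1 0 * z + M 1 1) = M 0 0 * z + M 0 1

/-- `h` has a nontrivial image under an action by increasing homeomorphisms which are piecewise
projective over a subring without `1 / p`, or an image of infinite order in a virtually residually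
finite `p`-group. -/
def Detected (p : ℕ) {H : Type v} [Group H] (h : H) : Prop :=
  (∃ (B : Subring ℝ) (ρ : H →* (ℝ ≃o ℝ)), (p : ℝ)⁻¹ ∉ B ∧
    (∀ x, PiecewiseProjectiveOver B (ρ x)) ∧ ρ h ≠ 1) ∨
  ∃ (Γ : Type v) (_ : Group Γ) (φ : H →* Γ), VRes p Γ ∧ ∀ m : ℕ, 0 < m → φ h ^ m ≠ 1

theorem result (p : ℕ) (hp : p.Prime) (R : Type u) [CommRing R] [IsDomain R]
    (hR : ¬ IsUnit (p : R)) (G : Type v) [Group G]
    (hG : ∀ H : Subgroup G, H.FG → ∀ h : H, (∀ m : ℕ, 0 < m → h ^ m ≠ 1) → Detected p h) :
    BassFor R G := by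
  intro n A hA g hg
  refine Pool.Agent.H26R2.Bass.bass_of_local (fun H hH h hh => ?_) A hA g hg
  have hh' : ∀ m : ℕ, 0 < m → h ^ m ≠ 1 := fun m hm hc => hh ⟨m, hm, hc⟩
  have : Group.FG H := (Group.fg_iff_subgroup_fg H).2 hH
  refine Or.inr (Or.inl ⟨p, hp, hR, fun j hj hc => ?_⟩)
  have hdiv := Pool.Agent.Q91.PP.divisible_of_conj hj hc
  rcases hG H hH h hh' with ⟨B, ρ, h1, h2, h3⟩ | ⟨Γ, _, φ, hv, h1⟩
  · exact Pool.Agent.Q91.PP.not_div_over ρ h2 hp.pos h1 h3 hdiv
  · obtain ⟨m, hm, h2⟩ := RP.no_div (hv.rp hp) (g := φ h) (fun k => by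
      obtain ⟨x, hx⟩ := hdiv k
      exact ⟨φ x, by rw [← map_pow, hx]⟩)
    exact h1 m hm h2

end Pool.Agent.Results.MP_7903c7_al.NonUnitPrime
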