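import Pool.Agent.Q91.PP.Over
import Pool.Agent.H26R2.Bass.Main

/-!
# The Bass trace conjecture for groups of piecewise projective homeomorphisms of the line

Over every commutative domain of characteristic zero the Bass trace conjecture holds for the groups
of increasing piecewise projective homeomorphisms of the line, such as Thompson's group `F`, the
groups of piecewise linear homeomorphisms, Monod's non-amenable groups without free subgroups, and
the groups of Lodha and Moore; more generally for the groups all of whose finitely generated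
subgroups have a finite series of normal subgroups with factors which are periodic, abelian of
finite rank, or act, with a periodic joint kernel, by piecewise projective homeomorphisms and
linearly in characteristic zero, over finitely generated rings.
-/

set_option autoImplicit false

namespace Pool.Agent.Results.MP_7903c7_al.ProjectiveSeries

open Pool.Agent.H26R2.IdemLI (FinOrd)

universe u v w

/-- The Bass trace conjecture for the ring `R` and the group `G`. -/
def BassFor (R : Type u) [CommRing R] (G : Type v) [Group G] : Prop :=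
  ∀ (n : ℕ) (A : Matrix (Fin n) (Fin n) (MonoidAlgebra R G)), A * A = A →
    ∀ g : G, ¬ IsUnit ((orderOf g : ℕ) : R) →
      ∑ i : Fin n, ∑ᶠ (h : G) (_ : IsConj h g), (A i i).coeff h = 0

/-- The matrix `M` is invertible over the ring generated by `s`. -/
def InvertibleOver (s : Finset ℝ) (M : Matrix (Fin 2) (Fin 2) ℝ) : Prop :=
  (∀ i j, M i j ∈ Algebra.adjoin ℤ (s : Set ℝ)) ∧ M.det ≠ 0 ∧
    (M.det)⁻¹ ∈ Algebra.adjoin ℤ (s : Set ℝ)

/-- The function `f` is given by maps `z ↦ (α z + β) / (γ z + δ)`, which come from invertible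
matrices over the ring generated by `s`, near `-∞` and to the right of each point of the line. -/
def PiecewiseProjectiveOver (s : Finset ℝ) (f : ℝ → ℝ) : Prop :=
  (∃ M, InvertibleOver s M ∧
    ∃ b : ℝ, ∀ z < b, f z * (M 1 0 * z + M 1 1) = M 0 0 * z + M 0 1) ∧
  ∀ a : ℝ, ∃ M, InvertibleOver s M ∧
    ∃ b > a, ∀ z, a < z → z < b → f z * (M 1 0 * z + M 1 1) = M 0 0 * z + M 0 1

/-- `f` is piecewise projective: there are finitely many real matrices with nonzero determinant
such that `f` is given by one of the corresponding maps `z ↦ (α z + β) / (γ z + δ)` near `-∞` and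
to the right of each point of the line. -/
def IsPiecewiseProjective (f : ℝ → ℝ) : Prop :=
  ∃ S : Finset (Matrix (Fin 2) (Fin 2) ℝ), (∀ M ∈ S, M.det ≠ 0) ∧
    (∃ M ∈ S, ∃ b : ℝ, ∀ z < b, f z * (M 1 0 * z + M 1 1) = M 0 0 * z + M 0 1) ∧
    ∀ a : ℝ, ∃ M ∈ S, ∃ b > a, ∀ z, a < z → z < b →
      f z * (M 1 0 * z + M 1 1) = M 0 0 * z + M 0 1

/-- `A` has finitely many actions by piecewise projective homeomorphisms over a finitely generated
ring, and a linear representation over a finitely generated ring in characteristic zero, with a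
periodic joint kernel. -/
def ProjectiveType (A : Type v) [Group A] : Prop :=
  ∃ (k : ℕ) (ρ : Fin k → A →* (ℝ ≃o ℝ)) (s : Finset ℝ) (K : Type w) (_ : Field K)
    (_ : CharZero K) (N : ℕ) (φ : A →* GL (Fin N) K) (t : Finset K),
    (∀ i x, PiecewiseProjectiveOver s (ρ i x)) ∧
    (∀ x i j, (φ x).val i j ∈ Algebra.adjoin ℤ (t : Set K)) ∧
    ∀ x : A, (∀ i, ρ i x = 1) → φ x = 1 → IsOfFinOrder x

/-- `A` is abelian of finite (torsion-free) rank. -/
def FiniteRankAbelian (A : Type v) [Group A] : Prop :=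
  (∀ x y : A, x * y = y * x) ∧ ∃ F : Finset A,
    ∀ x : A, ∃ n : ℕ, 0 < n ∧ x ^ n ∈ Subgroup.closure (F : Set A)

/-- Finite series of normal subgroups with factors which are periodic, abelian of finite rank, or of
projective type. -/
def HasSeries (H : Type v) [Group H] : Prop :=
  ∃ (k : ℕ) (S : ℕ → Subgroup H) (_ : ∀ i, (S i).Normal), S 0 = ⊥ ∧ S k = ⊤ ∧
    ∀ i < k, S i ≤ S (i + 1) ∧
      ((∀ x ∈ S (i + 1), ∃ n : ℕ, 0 < n ∧ x ^ n ∈ S i) ∨
        FiniteRankAbelian ((S (i + 1)).map (QuotientGroup.mk' (S i))) ∨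
        ProjectiveType.{v, w} ((S (i + 1)).map (QuotientGroup.mk' (S i))))

lemma finOrd_iff {A : Type v} [Group A] (x : A) : FinOrd x ↔ IsOfFinOrder x := by
  rw [isOfFinOrder_iff_pow_eq_one]
  rfl

lemma ProjectiveType.proj {A : Type v} [Group A] (h : ProjectiveType.{v, w} A) :
    Pool.Agent.Q91.PP.ProjType.{v, w} A := by
  obtain ⟨k, ρ, s, K, _, _, N, φ, t, hρ, hφ, hker⟩ := h
  refine ⟨k, ρ, s, K, inferInstance, inferInstance, N, φ, t, ?_, hφ,
    fun x h1 h2 => (finOrd_iff x).2 (hker x h1 h2)⟩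
  intro i x a
  have key : ∃ M, InvertibleOver s M ∧ ∀ᶠ z in Pool.Agent.Q91.PP.fl a,
      ρ i x z * (M 1 0 * z + M 1 1) = M 0 0 * z + M 0 1 := by
    obtain ⟨h1, h2⟩ := hρ i x
    cases a with
    | none =>
      obtain ⟨M, hM, b, hb⟩ := h1
      refine ⟨M, hM, ?_⟩
      show ∀ᶠ z in Filter.atBot, _
      filter_upwards [Filter.eventually_lt_atBot b] with z hz
      exact hb z hz
    | some a =>
      obtain ⟨M, hM, b, hb, h⟩ := h2 a
      refine ⟨M, hM, ?_⟩
      show ∀ᶠ z in nhdsWithin a (Set.Ioi a), _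
      filter_upwards [Ioo_mem_nhdsGT hb] with z hz
      exact h z hz.1 hz.2
  obtain ⟨M, ⟨hent, hdet, hinv⟩, h⟩ := key
  refine ⟨Matrix.of fun i j => ⟨M i j, hent i j⟩, ?_, ?_⟩
  · have hd : ((Matrix.of fun i j => (⟨M i j, hent i j⟩ : Algebra.adjoin ℤ (s : Set ℝ))).det : ℝ) =
        M.det := by
      rw [Matrix.det_fin_two, Matrix.det_fin_two]
      simp
    apply IsUnit.of_mul_eq_one (⟨(M.det)⁻¹, hinv⟩ : Algebra.adjoin ℤ (s : Set ℝ))
    apply Subtype.ext
    rw [Subalgebra.coe_mul, hd, Subalgebra.coe_one]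
    exact mul_inv_cancel₀ hdet
  · filter_upwards [h] with z hz
    exact hz

lemma FiniteRankAbelian.rank {G : Type v} [Group G] {A : Subgroup G}
    (h : FiniteRankAbelian A) : Pool.Agent.H26R2.IdemLI.FinRankAb A := by
  classical
  obtain ⟨h1, F, hF⟩ := h
  refine ⟨fun x hx y hy => congrArg Subtype.val (h1 ⟨x, hx⟩ ⟨y, hy⟩), F.image Subtype.val, ?_, ?_⟩
  · intro f hf
    obtain ⟨y, _, rfl⟩ := Finset.mem_image.1 hf
    exact y.2
  · intro x hx
    obtain ⟨n, hn, h2⟩ := hF ⟨x, hx⟩
    refine ⟨n, hn, ?_⟩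
    have h3 : A.subtype (⟨x, hx⟩ ^ n) ∈ (Subgroup.closure (F : Set A)).map A.subtype :=
      ⟨_, h2, rfl⟩
    rw [MonoidHom.map_closure] at h3
    rw [Finset.coe_image]
    exact h3

lemma HasSeries.admissible {R : Type u} [CommRing R] [IsDomain R] [hR : CharZero R] {H : Type v}
    [Group H] (h : HasSeries.{v, w} H) : Pool.Agent.H26R2.Bass.Admissible R H := by
  obtain ⟨k, S, hS, h0, hk, hstep⟩ := h
  refine ⟨⊤, ⟨k, S, hS, h0, hk, fun i hi => ⟨(hstep i hi).1, ?_⟩⟩, ?_⟩
  · rcases (hstep i hi).2 with h1 | h1 | h1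
    · exact Or.inl h1
    · exact Or.inr (Or.inr (Or.inr (Or.inr ⟨hR, Or.inl h1.rank⟩)))
    · exact Or.inr (Or.inr (Or.inr (Or.inr ⟨hR, Or.inr
        (Pool.Agent.Q91.PP.chainFin_proj h1.proj)⟩)))
  · intro H' _ h hc
    exact absurd (Subgroup.mem_top _) (hc 1 one_pos)

lemma chain_bot {H : Type v} [Group H] (h : Pool.Agent.Q91.PP.ProjType.{v, w} H)
    (M N : Subgroup H) [M.Normal] (hM : M = ⊥) :
    Pool.Agent.H26R2.IdemLI.ChainFin (N.map (QuotientGroup.mk' M)) := by
  subst hM
  apply Pool.Agent.Q91.PP.chainFin_proj.{v, w}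
  refine h.comap ((QuotientGroup.quotientBot (G := H)).toMonoidHom.comp (Subgroup.subtype _)) ?_
  intro x hx
  refine ⟨1, one_pos, ?_⟩
  rw [pow_one]
  apply Subtype.ext
  apply (QuotientGroup.quotientBot (G := H)).injective
  rw [OneMemClass.coe_one, map_one]
  exact hx

/-- the Bass conjecture for groups with `ChainFin` finitely generated subgroups -/
lemma bass_of_projType {R : Type u} [CommRing R] [IsDomain R] [hR : CharZero R] {G : Type v}
    [Group G] (h : ∀ H : Subgroup G, H.FG → Pool.Agent.Q91.PP.ProjType.{v, w} H) :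
    BassFor R G := by
  intro n A hA g hg
  refine Pool.Agent.H26R2.Bass.bass_main (Or.inr fun H hH => ?_) A hA g hg
  have hnorm : ∀ i : ℕ, (if i = 0 then (⊥ : Subgroup H) else ⊤).Normal := by
    intro i
    split_ifs <;> infer_instance
  refine ⟨⊤, ⟨1, fun i => if i = 0 then ⊥ else ⊤, hnorm, rfl, rfl, ?_⟩, ?_⟩
  · intro i hi
    obtain rfl : i = 0 := by omega
    exact ⟨bot_le, Or.inr (Or.inr (Or.inr (Or.inr ⟨hR, Or.inr
      (@chain_bot.{v, w} H _ (h H hH) _ _ (hnorm 0) rfl)⟩)))⟩
  · intro H' _ h hc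
    exact absurd (Subgroup.mem_top _) (hc 1 one_pos)

/-- Let `R` be a commutative domain of characteristic zero.
(1) The Bass trace conjecture holds for `R` and the groups all of whose finitely generated subgroups
have a finite series of normal subgroups with factors which are periodic, abelian of finite rank, or
of projective type.
(2) It holds for `R` and the groups with finitely many actions by piecewise projective
homeomorphisms of the line and a linear representation in characteristic zero with a periodic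
joint kernel. -/
theorem result (R : Type u) [CommRing R] [IsDomain R] [CharZero R] (G : Type v) [Group G] :
    ((∀ H : Subgroup G, H.FG → HasSeries.{v, w} H) → BassFor R G) ∧
    (∀ (k : ℕ) (ρ : Fin k → G →* (ℝ ≃o ℝ)), (∀ i x, IsPiecewiseProjective (ρ i x)) →
      ∀ (K : Type w) [Field K] [CharZero K] (N : ℕ) (φ : G →* GL (Fin N) K),
      (∀ x : G, (∀ i, ρ i x = 1) → φ x = 1 → IsOfFinOrder x) → BassFor R G) := by
  refine ⟨fun h n A hA g hg => ?_, fun k ρ hρ K _ _ N φ hker => ?_⟩
  · exact Pool.Agent.H26R2.Bass.bass_main (Or.inr fun H hH => (h H hH).admissible) A hA g hg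
  · refine bass_of_projType.{u, v, w} fun H hH => ?_
    have : Group.FG H := (Group.fg_iff_subgroup_fg H).2 hH
    refine Pool.Agent.Q91.PP.projType_of_fg.{v, w} (fun i => (ρ i).comp H.subtype)
      (fun i x => hρ i x) (φ.comp H.subtype) ?_
    intro x h1 h2
    obtain ⟨m, hm, h3⟩ := (isOfFinOrder_iff_pow_eq_one.1 (hker x.1 h1 h2))
    exact ⟨m, hm, Subtype.ext (by simpa using h3)⟩

end Pool.Agent.Results.MP_7903c7_al.ProjectiveSeries
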